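import Pool.Agent.TH524.Mey.Guard
import Pool.Agent.Y392.Mey.Force
import Pool.Agent.H594R2.Mey2.Graph
import Pool.Agent.H251R2.Cops.Quotient

/-!
# Meyniel's bound for graphs which can be taken apart cheaply

Let `G` be a connected graph on `n` vertices. We reduce `G` to small graphs, repeatedly, by the
following operations.

(a) Gluing at the cost `log₂ N`: the graph is glued from `N` pieces, along sets which are dominated
from both sides; for instance along cliques and along star cutsets. If the pieces are glued like a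
tree, along sets which lie in a piece on both sides and are dominated in these two pieces, then the
cost is only `1`, for any number of pieces.

(b) Separation at the cost `|S| + m`: the graph is reduced to `m` retracts `W j` of it (for instance
shortest paths), and to the components which are left when the closed neighbourhoods of the vertices
of `S` and the retracts have been removed.

(c) Folding, at no cost: the graph is reduced to its image under a retraction `f` such that
`N[x] ⊆ N[f x]` for all `x`; for instance one removes a vertex which is dominated by another one.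

If this is possible at the total cost `a`, and if the small graphs have cop number at most `k`, then
`c(G) ≤ a + k`. With the bound `c(H) = O(√|H| log |H|)` of the starting files (`H594R2.Mey2`),
Meyniel's bound `c(G) = O(√n)` holds for all graphs which can be reduced at the cost `O(√n)` to
graphs with at most `n / (log n + 1)²` vertices; in particular for graphs glued from at most
`2 ^ √n` such pieces, and for graphs which are separated into such pieces by `√n` stars and shortest
paths.

Proof ideas. The shadow of the robber under a weak homomorphism into a set can be caught by as many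
cops as are needed in the subgraph induced on this set, and then it can be kept by one cop. Let
`U = A ∪ B` be glued and `F` a weak homomorphism into `U`. One retracts `U` onto `A` and onto `B`.
A cop who keeps the shadow in `A` and a cop who keeps the shadow in `B` together keep `F x`. So one
more cop than for `B` is enough, if this is at least the number for `A`; taking the smaller side as
`B` one loses only `log₂ N`. In the case of a tree, one cop guards the way back to the pieces where
the robber has been, and the others catch his shadow in the next piece. For (b) one cop stands at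
each vertex of `S`, and for each retract one cop keeps the shadow of the robber. Now the robber
cannot enter any of these sets.
-/

set_option autoImplicit false
open N6ef48c04
open Pool.Agent.H251R2.Cops (copsWin_copNumber)
open Pool.Agent.Y392.Mey (Force Wk wk_mono)
open Pool.Agent.TH524.Mey (Play play_mono)

namespace Pool.Agent.Results.MP_964892_co.GluingAndRetracts

variable {V : Type*}

/-- `f` is a retraction of `G` onto `W`: adjacent vertices have equal or adjacent images. -/
def Retr (G : SimpleGraph V) (f : V → V) (W : Set V) : Prop :=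
  (∀ x y, G.Adj x y → f x = f y ∨ G.Adj (f x) (f y)) ∧ (∀ x, f x ∈ W) ∧ ∀ x ∈ W, f x = x

theorem Retr.step {G : SimpleGraph V} {f : V → V} {W : Set V} (h : Retr G f W) {x y : V}
    (hs : Step G x y) : Step G (f x) (f y) := by
  rcases hs with rfl | hs
  · exact Or.inl rfl
  · exact h.1 x y hs

theorem Retr.connected {G : SimpleGraph V} {f : V → V} {W : Set V} (h : Retr G f W)
    (hG : G.Connected) : (G.induce W).Connected := by
  obtain ⟨o⟩ := hG.nonempty
  have key : ∀ (x y : V) (w : G.Walk x y),
      (G.induce W).Reachable ⟨f x, h.2.1 x⟩ ⟨f y, h.2.1 y⟩ := by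
    intro x y w
    induction w with
    | nil => exact SimpleGraph.Reachable.refl _
    | @cons u v w hadj _ ih =>
      refine SimpleGraph.Reachable.trans ?_ ih
      rcases h.1 u v hadj with h1 | h1
      · have : (⟨f u, h.2.1 u⟩ : W) = ⟨f v, h.2.1 v⟩ := Subtype.ext h1
        rw [this]
      · exact SimpleGraph.Adj.reachable (G := G.induce W) h1
  refine (SimpleGraph.connected_iff _).2 ⟨fun x y => ?_, ⟨⟨f o, h.2.1 o⟩⟩⟩
  obtain ⟨w⟩ := hG.preconnected x.1 y.1
  have h1 := key x.1 y.1 w
  have hx : (⟨f x.1, h.2.1 x.1⟩ : W) = x := Subtype.ext (h.2.2 x.1 x.2)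
  have hy : (⟨f y.1, h.2.1 y.1⟩ : W) = y := Subtype.ext (h.2.2 y.1 y.2)
  rwa [hx, hy] at h1

/-- `f` is a weak homomorphism of `G` into `W`. -/
def Sh (G : SimpleGraph V) (f : V → V) (W : Set V) : Prop :=
  (∀ x y, G.Adj x y → f x = f y ∨ G.Adj (f x) (f y)) ∧ ∀ x, f x ∈ W

theorem Retr.sh {G : SimpleGraph V} {f : V → V} {W : Set V} (h : Retr G f W) : Sh G f W :=
  ⟨h.1, h.2.1⟩

theorem Sh.step {G : SimpleGraph V} {f : V → V} {W : Set V} (h : Sh G f W) {x y : V}
    (hs : Step G x y) : Step G (f x) (f y) := by
  rcases hs with rfl | hs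
  · exact Or.inl rfl
  · exact h.1 x y hs

theorem step_coe {G : SimpleGraph V} {W : Set V} {a b : W} (h : Step (G.induce W) a b) :
    Step G (a : V) (b : V) := by
  rcases h with h | h
  · exact Or.inl (congrArg Subtype.val h)
  · exact Or.inr h

theorem wk_exists {G : SimpleGraph V} (hG : G.Connected) (x y : V) :
    ∃ m, Wk (Step G) m x y := by
  obtain ⟨w⟩ := hG.preconnected x y
  induction w with
  | nil => exact ⟨0, rfl⟩
  | @cons u v w hadj _ ih =>
    obtain ⟨m, hm⟩ := ih
    exact ⟨m + 1, v, Or.inr hadj, hm⟩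

/-- The cops who win on the retract catch the shadow of the robber. -/
theorem hunt {G : SimpleGraph V} {f : V → V} {W : Set V} (h : Sh G f W) {k : ℕ} (m : ℕ) :
    ∀ (c : Fin k → W) (x : V), CopsCatchWithin (G.induce W) k m c ⟨f x, h.2 x⟩ →
      ∃ c' : Fin k → V, (∀ i, Step G (c i : V) (c' i)) ∧
        Force G (Step G) (fun c x => ∃ i, c i = f x) c' x := by
  induction m with
  | zero =>
    rintro c x ⟨i, hi⟩
    exact ⟨fun i => c i, fun i => Or.inl rfl,
      Force.done _ _ ⟨i, congrArg Subtype.val hi⟩⟩
  | succ m ih =>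
    intro c x hc
    rcases hc with ⟨i, hi⟩ | ⟨c', hc', hc⟩
    · exact ⟨fun i => c i, fun i => Or.inl rfl,
        Force.done _ _ ⟨i, congrArg Subtype.val hi⟩⟩
    · refine ⟨fun i => c' i, fun i => step_coe (hc' i), ?_⟩
      rcases hc with ⟨i, hi⟩ | hc
      · exact Force.done _ _ ⟨i, congrArg Subtype.val hi⟩
      · refine Force.round fun x' hx' => ?_
        refine ih c' x' (hc _ ?_)
        rcases h.step hx' with h1 | h1
        · exact Or.inl (Subtype.ext h1)
        · exact Or.inr h1

theorem chase [Finite V] {G : SimpleGraph V} (hG : G.Connected) {f : V → V} {W : Set V}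
    (h : Sh G f W) (c : Fin (copNumber (G.induce W)) → V) (x : V) :
    Force G (Step G) (fun c x => ∃ i, c i = f x) c x := by
  classical
  have hW : Fintype W := Fintype.ofFinite _
  obtain ⟨c0, hc0⟩ := copsWin_copNumber (G.induce W)
  have hw : ∀ i, ∃ m, Wk (Step G) m (c i) (c0 i : V) := fun i => wk_exists hG _ _
  choose M hM using hw
  have hw' : ∀ i, Wk (Step G) (Finset.univ.sup M) (c i) (c0 i : V) := fun i =>
    wk_mono (R := Step G) (fun x => (Or.inl rfl : Step G x x))
      (Finset.le_sup (f := M) (Finset.mem_univ i)) (hM i)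
  have h1 : Force G (Step G) (fun d _ => d = fun i => (c0 i : V)) c x :=
    Force.walk _ hw' fun _ _ => rfl
  refine Force.bind ?_ h1
  rintro _ r rfl
  refine Force.round fun r' _ => ?_
  obtain ⟨m, hm⟩ := hc0 ⟨f r', h.2 r'⟩
  exact hunt h m c0 r' hm

/-- The first `i` shadows are occupied by different cops. -/
def Gd {ι : Type*} {m : ℕ} (F : Fin m → V → V) (i : ℕ) (c : ι → V) (x : V) : Prop :=
  ∃ e : Fin m → ι, Function.Injective e ∧ ∀ j, j.val < i → c (e j) = F j x

theorem keep {ι : Type*} {m : ℕ} {G : SimpleGraph V} {F : Fin m → V → V} {W : Fin m → Set V}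
    (hF : ∀ j, Retr G (F j) (W j)) (i : ℕ) (e : Fin m → ι) (he : Function.Injective e)
    (c : ι → V) (x x' : V) (hx : Step G x x') (hc : ∀ j, j.val < i → c (e j) = F j x) :
    ∃ c' : ι → V, (∀ t, Step G (c t) (c' t)) ∧ ∀ j, j.val < i → c' (e j) = F j x' := by
  classical
  refine ⟨Function.extend e (fun j => if j.val < i then F j x' else c (e j)) c, ?_, ?_⟩
  · intro t
    by_cases ht : ∃ j, e j = t
    · obtain ⟨j, rfl⟩ := ht
      rw [he.extend_apply]
      by_cases hj : j.val < i
      · rw [if_pos hj, hc j hj]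
        exact (hF j).step hx
      · rw [if_neg hj]
        exact Or.inl rfl
    · rw [Function.extend_apply' _ _ _ ht]
      exact Or.inl rfl
  · intro j hj
    rw [he.extend_apply, if_pos hj]

theorem guards [Finite V] {G : SimpleGraph V} (hG : G.Connected) {m k : ℕ} {F : Fin m → V → V}
    {W : Fin m → Set V} (hF : ∀ j, Retr G (F j) (W j))
    (hk : ∀ j, copNumber (G.induce (W j)) ≤ k) (i : ℕ) (hi : i ≤ m) :
    ∀ (c : Fin (m + k) → V) (x : V), Force G (Step G) (Gd F i) c x := by
  classical
  induction i with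
  | zero =>
    intro c x
    exact Force.done _ _ ⟨Fin.castAdd k, Fin.castAdd_injective m k,
      fun j hj => absurd hj (Nat.not_lt_zero _)⟩
  | succ i ih =>
    intro c x
    refine Force.bind ?_ (ih (by omega) c x)
    rintro c x ⟨e, he, hc⟩
    set j₀ : Fin m := ⟨i, by omega⟩ with hj₀
    set S : Finset (Fin (m + k)) := Finset.univ \ Finset.univ.image e with hS
    have hcard : copNumber (G.induce (W j₀)) ≤ S.card := by
      have h1 : S.card = (m + k) - m := by
        rw [hS, Finset.card_sdiff_of_subset (Finset.subset_univ _),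
          Finset.card_image_of_injective _ he, Finset.card_univ, Finset.card_univ,
          Fintype.card_fin, Fintype.card_fin]
      have := hk j₀
      omega
    set g : Fin (copNumber (G.induce (W j₀))) → Fin (m + k) :=
      fun l => S.orderEmbOfCardLe hcard l with hg
    have hginj : Function.Injective g := (S.orderEmbOfCardLe hcard).injective
    have hgS : ∀ l j, e j ≠ g l := by
      intro l j h1
      have h2 : g l ∈ S := Finset.orderEmbOfCardLe_mem S hcard l
      rw [hS, Finset.mem_sdiff] at h2
      exact h2.2 (Finset.mem_image.2 ⟨j, Finset.mem_univ _, h1⟩)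
    have h1 := chase hG (hF j₀).sh (c ∘ g) x
    have h2 := Force.combine (G := G) (R := Step G) (R1 := Step G) g hginj
      (P := fun c x => ∃ l, c l = F j₀ x)
      (fun c x => ∀ j : Fin m, j.val < i → c (e j) = F j x) (fun _ _ => False)
      (by
        intro c c' h3 r h4 j hj
        rw [← h3 (e j) (fun l h5 => hgS l j h5.symm)]
        exact h4 j hj)
      (by
        intro c r r' h3 h4
        exact Or.inr ⟨h4, keep hF i e he c r r' h4 h3⟩)
      h1 c rfl hc
    refine Force.mono ?_ h2
    rintro d y (⟨⟨l, hl⟩, h3⟩ | h3)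
    · refine ⟨Function.update e j₀ (g l), ?_, ?_⟩
      · intro a b hab
        by_cases ha : a = j₀
        · by_cases hb : b = j₀
          · rw [ha, hb]
          · rw [ha, Function.update_self, Function.update_of_ne hb] at hab
            exact absurd hab.symm (hgS l b)
        · by_cases hb : b = j₀
          · rw [hb, Function.update_self, Function.update_of_ne ha] at hab
            exact absurd hab (hgS l a)
          · rw [Function.update_of_ne ha, Function.update_of_ne hb] at hab
            exact he hab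
      · intro j hj
        by_cases hjj : j = j₀
        · rw [hjj, Function.update_self]
          exact hl
        · rw [Function.update_of_ne hjj]
          refine h3 j ?_
          have : j.val ≠ i := fun h => hjj (Fin.ext h)
          omega
    · exact h3.elim

theorem play_keep {ι : Type*} {G : SimpleGraph V} (T : (ι → V) → V → Prop)
    (hT : ∀ c x x', T c x → Step G x x' → ∃ c' : ι → V, (∀ i, Step G (c i) (c' i)) ∧ T c' x')
    (h : ℕ) : ∀ c x, T c x → Play G T h c x := by
  induction h with
  | zero => exact fun c x hc => hc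
  | succ h ih =>
    intro c x hc x' hx'
    obtain ⟨c', h1, h2⟩ := hT c x x' hc hx'
    exact ⟨c', h1, ih c' x' h2⟩

theorem play_of_force [Fintype V] {ι : Type*} {G : SimpleGraph V} (T : (ι → V) → V → Prop)
    (hT : ∀ c x x', T c x → Step G x x' → ∃ c' : ι → V, (∀ i, Step G (c i) (c' i)) ∧ T c' x')
    {c : ι → V} {x : V} (hf : Force G (Step G) T c x) :
    ∃ M : ℕ, ∀ h, M ≤ h → Play G T h c x := by
  classical
  induction hf with
  | done c r hp => exact ⟨0, fun h _ => play_keep T hT h c r hp⟩
  | step c r c' h1 _ ih =>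
    choose! M hM using ih
    refine ⟨Finset.univ.sup M + 1, fun h hh => ?_⟩
    obtain ⟨t, rfl⟩ : ∃ t, h = t + 1 := ⟨h - 1, by omega⟩
    intro x' hx'
    refine ⟨c' x', h1 x' hx', hM x' hx' t ?_⟩
    have := Finset.le_sup (f := M) (Finset.mem_univ x')
    omega

/-! ### Gluing along dominated sets -/

/-- `A` and `B` are glued along the set `A ∩ B`, which lies in the closed neighbourhood of a vertex
of `A` and in the closed neighbourhood of a vertex of `B`. -/
def Glue (G : SimpleGraph V) (A B : Set V) : Prop :=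
  (∃ v ∈ A, ∀ a ∈ A, a ∈ B → a = v ∨ G.Adj a v) ∧
  (∃ v ∈ B, ∀ a ∈ A, a ∈ B → a = v ∨ G.Adj a v) ∧
  ∀ a ∈ A, ∀ b ∈ B, G.Adj a b → a ∈ B ∨ b ∈ A

theorem Glue.symm {G : SimpleGraph V} {A B : Set V} (h : Glue G A B) : Glue G B A := by
  obtain ⟨⟨v, hv, h1⟩, ⟨w, hw, h2⟩, h3⟩ := h
  exact ⟨⟨w, hw, fun a ha hb => h2 a hb ha⟩, ⟨v, hv, fun a ha hb => h1 a hb ha⟩,
    fun a ha b hb hab => (h3 b hb a ha hab.symm).symm⟩

/-- The retraction of `A ∪ B` onto `A`. -/
theorem Glue.left {G : SimpleGraph V} {A B : Set V} (h : Glue G A B) {F : V → V}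
    (hF : Sh G F (A ∪ B)) : ∃ ρ : V → V, Sh G (fun x => ρ (F x)) A ∧ ∀ y ∈ A, ρ y = y := by
  classical
  obtain ⟨⟨v, hv, hdom⟩, -, hsep⟩ := h
  have hρ1 : ∀ y, y ∈ A → (if y ∈ A then y else v) = y := fun y hy => if_pos hy
  have hρ2 : ∀ y, y ∉ A → (if y ∈ A then y else v) = v := fun y hy => if_neg hy
  refine ⟨fun y => if y ∈ A then y else v, ⟨fun x y hxy => ?_, fun x => ?_⟩, hρ1⟩
  · show (if F x ∈ A then F x else v) = (if F y ∈ A then F y else v) ∨
      G.Adj (if F x ∈ A then F x else v) (if F y ∈ A then F y else v)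
    rcases hF.1 x y hxy with h1 | h1
    · rw [h1]
      exact Or.inl rfl
    · by_cases hx : F x ∈ A
      · by_cases hy : F y ∈ A
        · rw [hρ1 _ hx, hρ1 _ hy]
          exact Or.inr h1
        · rw [hρ1 _ hx, hρ2 _ hy]
          have hyB := (hF.2 y).resolve_left hy
          exact hdom _ hx ((hsep _ hx _ hyB h1).resolve_right hy)
      · by_cases hy : F y ∈ A
        · rw [hρ2 _ hx, hρ1 _ hy]
          have hxB := (hF.2 x).resolve_left hx
          rcases hdom _ hy ((hsep _ hy _ hxB h1.symm).resolve_right hx) with h2 | h2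
          · exact Or.inl h2.symm
          · exact Or.inr h2.symm
        · rw [hρ2 _ hx, hρ2 _ hy]
          exact Or.inl rfl
  · show (if F x ∈ A then F x else v) ∈ A
    by_cases hx : F x ∈ A
    · rw [hρ1 _ hx]
      exact hx
    · rw [hρ2 _ hx]
      exact hv

/-- Sets built with rank at most `r` from pieces with cop number at most `k`. -/
inductive Rk (G : SimpleGraph V) (k : ℕ) : ℕ → Set V → Prop
  | piece (r : ℕ) (A : Set V) : copNumber (G.induce A) ≤ k → Rk G k r A
  | glue (r : ℕ) (A B : Set V) : Rk G k (r + 1) A → Rk G k r B → Glue G A B →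
      Rk G k (r + 1) (A ∪ B)

theorem Rk.catch [Finite V] {G : SimpleGraph V} (hG : G.Connected) {k r : ℕ} {U : Set V}
    (hU : Rk G k r U) : ∀ F : V → V, Sh G F U → ∀ (c : Fin (k + r) → V) (x : V),
      Force G (Step G) (fun c x => ∃ l, c l = F x) c x := by
  classical
  induction hU with
  | piece r A hk =>
    intro F hF c x
    set g : Fin (copNumber (G.induce A)) → Fin (k + r) :=
      Fin.castLE (hk.trans (Nat.le_add_right k r)) with hg
    have h1 := (chase hG hF (c ∘ g) x).embed g (Fin.castLE_injective _) c rfl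
    refine Force.mono ?_ h1
    rintro d y ⟨l, hl⟩
    exact ⟨g l, hl⟩
  | glue r A B _ _ hAB ihA ihB =>
    intro F hF c x
    obtain ⟨ρ, hρ, hρ1⟩ := hAB.left hF
    obtain ⟨σ, hσ, hσ1⟩ := hAB.symm.left (F := F) (by rwa [Set.union_comm])
    refine Force.bind ?_ (ihA _ hρ c x)
    rintro c x ⟨l₀, hl₀⟩
    set g : Fin (k + r) → Fin (k + (r + 1)) := Fin.succAbove (n := k + r) l₀ with hg
    have hginj : Function.Injective g := Fin.succAbove_right_injective
    have hgS : ∀ l, g l ≠ l₀ := fun l => Fin.succAbove_ne l₀ l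
    have h2 := Force.combine (G := G) (R := Step G) (R1 := Step G) g hginj
      (P := fun c x => ∃ l, c l = σ (F x))
      (fun c x => c l₀ = ρ (F x)) (fun _ _ => False)
      (by
        intro c c' h3 r h4
        rw [← h3 l₀ hgS]
        exact h4)
      (by
        intro c r r' h3 h4
        refine Or.inr ⟨h4, Function.update c l₀ (ρ (F r')), fun t => ?_, ?_⟩
        · by_cases ht : t = l₀
          · rw [ht, Function.update_self, h3]
            exact hρ.step h4
          · rw [Function.update_of_ne ht]
            exact Or.inl rfl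
        · exact Function.update_self _ _ _)
      (ihB _ hσ (c ∘ g) x) c rfl hl₀
    refine Force.mono ?_ h2
    rintro d y (⟨⟨l, hl⟩, h3⟩ | h3)
    · rcases hF.2 y with hy | hy
      · exact ⟨l₀, h3.trans (hρ1 _ hy)⟩
      · exact ⟨g l, (show d (g l) = σ (F y) from hl).trans (hσ1 _ hy)⟩
    · exact h3.elim

/-- `Built G P N U`: the set `U` is obtained from `N` sets with the property `P` by gluing. -/
inductive Built (G : SimpleGraph V) (P : Set V → Prop) : ℕ → Set V → Prop
  | piece (A : Set V) : P A → Built G P 1 A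
  | glue (M N : ℕ) (A B : Set V) : Built G P M A → Built G P N B → Glue G A B →
      Built G P (M + N) (A ∪ B)

theorem Built.pos {G : SimpleGraph V} {P : Set V → Prop} {M : ℕ} {U : Set V}
    (h : Built G P M U) : 1 ≤ M := by
  induction h with
  | piece _ _ => exact le_rfl
  | glue M N A B _ _ _ h1 h2 => omega

theorem Built.rk {G : SimpleGraph V} {P : Set V → Prop} {k M : ℕ} {U : Set V}
    (h : Built G P M U) (hG : G.Connected)
    (hP : ∀ A, P A → (G.induce A).Connected → copNumber (G.induce A) ≤ k) :
    ∀ r F, M < 2 ^ (r + 1) → Retr G F U → Rk G k r U := by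
  induction h with
  | piece A hA => exact fun r F _ hF => Rk.piece r A (hP A hA (hF.connected hG))
  | glue M N A B hA hB hAB ih1 ih2 =>
    intro r F hr hF
    have h1 := hA.pos
    have h2 := hB.pos
    obtain ⟨ρ, hρ, hρ1⟩ := hAB.left hF.sh
    obtain ⟨σ, hσ, hσ1⟩ := hAB.symm.left (F := F) (by rw [Set.union_comm]; exact hF.sh)
    have hRA : Retr G (fun x => ρ (F x)) A := ⟨hρ.1, hρ.2, fun x hx => by
      show ρ (F x) = x
      rw [hF.2.2 x (Or.inl hx), hρ1 x hx]⟩
    have hRB : Retr G (fun x => σ (F x)) B := ⟨hσ.1, hσ.2, fun x hx => by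
      show σ (F x) = x
      rw [hF.2.2 x (Or.inr hx), hσ1 x hx]⟩
    cases r with
    | zero => simp at hr; omega
    | succ r =>
      have h3 : 2 ^ (r + 1 + 1) = 2 * 2 ^ (r + 1) := by ring
      rw [h3] at hr
      rcases le_total N M with h4 | h4
      · exact Rk.glue r A B (ih1 (r + 1) _ (by rw [h3]; omega) hRA)
          (ih2 r _ (by omega) hRB) hAB
      · rw [Set.union_comm]
        exact Rk.glue r B A (ih2 (r + 1) _ (by rw [h3]; omega) hRB)
          (ih1 r _ (by omega) hRA) hAB.symm

/-- A robber whose capture can be forced from everywhere is caught by that many cops. -/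
theorem copNumber_le_of_force [Fintype V] {ι : Type*} [Fintype ι] {G : SimpleGraph V}
    (c₀ : ι → V)
    (h : ∀ x, Force G (Step G) (fun (c : ι → V) x => ∃ l, c l = x) c₀ x) :
    copNumber G ≤ Fintype.card ι := by
  have h1 : ∀ x, ∃ M : ℕ, ∀ h, M ≤ h → Play G (fun (c : ι → V) x => ∃ l, c l = x) h c₀ x := by
    intro x
    refine play_of_force _ ?_ (h x)
    classical
    rintro c x x' ⟨l, hl⟩ hx
    refine ⟨Function.update c l x', fun t => ?_, l, Function.update_self _ _ _⟩
    by_cases ht : t = l
    · rw [ht, Function.update_self, hl]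
      exact hx
    · rw [Function.update_of_ne ht]
      exact Or.inl rfl
  choose M hM using h1
  exact Pool.Agent.TH524.Mey.play_win G c₀ (Finset.univ.sup M) fun x =>
    hM x _ (Finset.le_sup (f := M) (Finset.mem_univ x))

theorem built_bound [Fintype V] (G : SimpleGraph V) (hG : G.Connected) {P : Set V → Prop}
    {k N : ℕ} (hP : ∀ A, P A → (G.induce A).Connected → copNumber (G.induce A) ≤ k)
    (h : Built G P N Set.univ) : copNumber G ≤ k + Nat.log 2 N := by
  obtain ⟨o⟩ := hG.nonempty
  have h0 : Rk G k (Nat.log 2 N) Set.univ :=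
    h.rk hG hP _ id (Nat.lt_pow_succ_log_self (by norm_num) N)
      ⟨fun x y h => Or.inr h, fun x => Set.mem_univ x, fun x _ => rfl⟩
  have h1 := copNumber_le_of_force (G := G) (ι := Fin (k + Nat.log 2 N)) (fun _ => o) fun x =>
    h0.catch hG id ⟨fun x y h => Or.inr h, fun x => Set.mem_univ x⟩ (fun _ => o) x
  rwa [Fintype.card_fin] at h1

/-! ### Gluing along sets which are dominated inside the pieces -/

/-- `Tree G P A U`: the set `U` is glued, like a tree, from sets with the property `P`, and `A` is
the piece at the root. Two parts are glued along a set which lies in both root pieces, and in the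
closed neighbourhood of a vertex of each of them. -/
inductive Tree (G : SimpleGraph V) (P : Set V → Prop) : Set V → Set V → Prop
  | piece (A : Set V) : P A → Tree G P A A
  | glue (A U B W : Set V) (a b : V) : Tree G P A U → Tree G P B W → a ∈ A → b ∈ B →
      (∀ x ∈ U, x ∈ W → x ∈ A ∧ x ∈ B ∧ Step G a x ∧ Step G b x) →
      (∀ x ∈ U, ∀ y ∈ W, G.Adj x y → x ∈ W ∨ y ∈ U) → Tree G P A (U ∪ W)

theorem Tree.root {G : SimpleGraph V} {P : Set V → Prop} {A U : Set V} (h : Tree G P A U) :
    P A ∧ ∀ x ∈ A, x ∈ U := by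
  induction h with
  | piece A h => exact ⟨h, fun _ hx => hx⟩
  | glue A U B W a b _ _ _ _ _ _ ih _ => exact ⟨ih.1, fun x hx => Or.inl (ih.2 x hx)⟩

/-- As `Force`, but until the cops have reached their aim the robber's vertex satisfies `I`. -/
inductive FI (G : SimpleGraph V) (I : V → Prop) {ι : Type*} (P : (ι → V) → V → Prop) :
    (ι → V) → V → Prop
  | done (c : ι → V) (r : V) : P c r → FI G I P c r
  | step (c : ι → V) (r : V) (c' : V → ι → V) : I r →
      (∀ r', Step G r r' → ∀ i, Step G (c i) (c' r' i)) →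
      (∀ r', Step G r r' → FI G I P (c' r') r') → FI G I P c r

theorem FI.force {G : SimpleGraph V} {I : V → Prop} {ι : Type*} {P : (ι → V) → V → Prop}
    {c : ι → V} {r : V} (h : FI G I P c r) : Force G (Step G) P c r := by
  induction h with
  | done c r hp => exact Force.done c r hp
  | step c r c' _ h1 _ ih => exact Force.step c r c' h1 ih

theorem FI.bind {G : SimpleGraph V} {I : V → Prop} {ι : Type*} {P Q : (ι → V) → V → Prop}
    (h : ∀ c r, P c r → FI G I Q c r) {c : ι → V} {r : V} (hf : FI G I P c r) :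
    FI G I Q c r := by
  induction hf with
  | done c r hp => exact h c r hp
  | step c r c' hi h1 _ ih => exact FI.step c r c' hi h1 ih

theorem FI.mono {G : SimpleGraph V} {I I' : V → Prop} {ι : Type*} {P : (ι → V) → V → Prop}
    (h : ∀ r, I r → I' r) {c : ι → V} {r : V} (hf : FI G I P c r) : FI G I' P c r := by
  induction hf with
  | done c r hp => exact FI.done c r hp
  | step c r c' hi h1 _ ih => exact FI.step c r c' (h r hi) h1 ih

theorem FI.combine {G : SimpleGraph V} {I : V → Prop} {ι κ : Type*} (e : κ → ι)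
    (he : Function.Injective e) {P : (κ → V) → V → Prop} (J J' : (ι → V) → V → Prop)
    (hI : ∀ c r, J c r → I r)
    (hJe : ∀ c c' : ι → V, (∀ i, (∀ k, e k ≠ i) → c i = c' i) → ∀ r, J c r → J c' r)
    (hJ : ∀ (c : ι → V) (r r' : V), J c r → Step G r r' →
      ∃ c' : ι → V, (∀ i, Step G (c i) (c' i)) ∧ (J' c' r' ∨ J c' r'))
    {c0 : κ → V} {r : V} (hf : Force G (Step G) P c0 r) :
    ∀ c : ι → V, c ∘ e = c0 → J c r →
      FI G I (fun c r => (P (c ∘ e) r ∧ J c r) ∨ J' c r) c r := by
  classical
  induction hf with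
  | done c0 r hp =>
    intro c hc hj
    refine FI.done c r (Or.inl ⟨?_, hj⟩)
    rw [hc]
    exact hp
  | step c0 r c' h1 _ ih =>
    intro c hc hj
    have hne : Nonempty (ι → V) := ⟨c⟩
    have key : ∀ r', Step G r r' → ∃ d : ι → V, (∀ i, Step G (c i) (d i)) ∧
        FI G I (fun c r => (P (c ∘ e) r ∧ J c r) ∨ J' c r) d r' := by
      intro r' hr'
      obtain ⟨d, hd1, hd2 | hd2⟩ := hJ c r r' hj hr'
      · exact ⟨d, hd1, FI.done d r' (Or.inr hd2)⟩
      · refine ⟨fun i => if h : ∃ k, e k = i then c' r' h.choose else d i, ?_, ?_⟩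
        · intro i
          by_cases h : ∃ k, e k = i
          · simp only [h, dif_pos]
            have h2 := h1 r' hr' h.choose
            have h3 : c0 h.choose = c i := by
              rw [← hc]
              show c (e h.choose) = c i
              rw [h.choose_spec]
            rw [← h3]
            exact h2
          · simp only [h, dif_neg, not_false_iff]
            exact hd1 i
        · refine ih r' hr' _ ?_ ?_
          · funext k
            show (if h : ∃ k', e k' = e k then c' r' h.choose else d (e k)) = c' r' k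
            have hex : ∃ k', e k' = e k := ⟨k, rfl⟩
            rw [dif_pos hex, he hex.choose_spec]
          · refine hJe d _ ?_ r' hd2
            intro i hi
            have hno : ¬ ∃ k, e k = i := fun ⟨k, hk⟩ => hi k hk
            simp only [hno, dif_neg, not_false_iff]
    choose! d hd1 hd2 using key
    exact FI.step c r d (hI c r hj) hd1 hd2

theorem side_retr {G : SimpleGraph V} {F : V → V} {U W : Set V} {a : V} {ρ : V → V}
    (hF : Retr G F (U ∪ W)) (ha : a ∈ U) (hdom : ∀ x ∈ U, x ∈ W → Step G a x)
    (hsep : ∀ x ∈ U, ∀ y ∈ W, G.Adj x y → x ∈ W ∨ y ∈ U) (hρ1 : ∀ y, y ∈ U → ρ y = y)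
    (hρ2 : ∀ y, y ∉ U → ρ y = a) : Retr G (fun x => ρ (F x)) U := by
  refine ⟨fun x y hxy => ?_, fun x => ?_, fun x hx => ?_⟩
  · show ρ (F x) = ρ (F y) ∨ G.Adj (ρ (F x)) (ρ (F y))
    rcases hF.1 x y hxy with h1 | h1
    · rw [h1]
      exact Or.inl rfl
    · by_cases hx : F x ∈ U
      · by_cases hy : F y ∈ U
        · rw [hρ1 _ hx, hρ1 _ hy]
          exact Or.inr h1
        · rw [hρ1 _ hx, hρ2 _ hy]
          have hyB := (hF.2.1 y).resolve_left hy
          rcases hdom _ hx ((hsep _ hx _ hyB h1).resolve_right hy) with h2 | h2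
          · exact Or.inl h2.symm
          · exact Or.inr h2.symm
      · by_cases hy : F y ∈ U
        · rw [hρ2 _ hx, hρ1 _ hy]
          have hxB := (hF.2.1 x).resolve_left hx
          exact hdom _ hy ((hsep _ hy _ hxB h1.symm).resolve_right hx)
        · rw [hρ2 _ hx, hρ2 _ hy]
          exact Or.inl rfl
  · show ρ (F x) ∈ U
    by_cases hx : F x ∈ U
    · rw [hρ1 _ hx]
      exact hx
    · rw [hρ2 _ hx]
      exact ha
  · show ρ (F x) = x
    rw [hF.2.2 x (Or.inl hx), hρ1 x hx]

theorem Tree.catch [Finite V] {G : SimpleGraph V} (hG : G.Connected) {P : Set V → Prop} {k : ℕ}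
    (hP : ∀ A, P A → (G.induce A).Connected → copNumber (G.induce A) ≤ k) {A U : Set V}
    (h : Tree G P A U) : ∀ F, Retr G F U → ∃ ρ : V → V, Retr G (fun x => ρ (F x)) A ∧
      (∀ y ∈ A, ρ y = y) ∧ ∀ (c : Fin (k + 1) → V) (x : V), (∃ l, c l = ρ (F x)) →
        FI G (fun r => F r ∉ A) (fun c x => ∃ l, c l = F x) c x := by
  classical
  induction h with
  | piece A hA => exact fun F hF => ⟨id, hF, fun _ _ => rfl, fun c x hl => FI.done _ _ hl⟩
  | glue A U B W a b hU hW ha hb hX hsep ihU ihW =>
    intro F hF
    have hAU := hU.root.2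
    have hBW := hW.root.2
    obtain ⟨ρ0, h01, h02⟩ : ∃ ρ : V → V, (∀ y, y ∈ U → ρ y = y) ∧ ∀ y, y ∉ U → ρ y = a :=
      ⟨fun y => if y ∈ U then y else a, fun y hy => if_pos hy, fun y hy => if_neg hy⟩
    obtain ⟨ρ1, h11, h12⟩ : ∃ ρ : V → V, (∀ y, y ∈ W → ρ y = y) ∧ ∀ y, y ∉ W → ρ y = b :=
      ⟨fun y => if y ∈ W then y else b, fun y hy => if_pos hy, fun y hy => if_neg hy⟩
    have hR0 : Retr G (fun x => ρ0 (F x)) U :=
      side_retr hF (hAU a ha) (fun x h1 h2 => (hX x h1 h2).2.2.1) hsep h01 h02
    have hR1 : Retr G (fun x => ρ1 (F x)) W :=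
      side_retr (by rwa [Set.union_comm]) (hBW b hb) (fun x h1 h2 => (hX x h2 h1).2.2.2)
        (fun x h1 y h2 h3 => (hsep y h2 x h1 h3.symm).symm) h11 h12
    obtain ⟨ρA, hρA, hρA1, hcA⟩ := ihU _ hR0
    obtain ⟨ρB, hρB, hρB1, hcB⟩ := ihW _ hR1
    refine ⟨fun y => ρA (ρ0 y), hρA, fun y hy => ?_, fun c x hl => ?_⟩
    · show ρA (ρ0 y) = y
      rw [h01 y (hAU y hy), hρA1 y hy]
    have h2 : FI G (fun r => F r ∉ A) (fun (c : Fin (k + 1) → V) x => ∃ l, c l = ρ0 (F x)) c x := by
      refine (hcA c x hl).mono fun r hr hFr => hr ?_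
      show ρ0 (F r) ∈ A
      rw [h01 _ (hAU _ hFr)]
      exact hFr
    refine FI.bind ?_ h2
    rintro c x ⟨l, hl⟩
    by_cases hxU : F x ∈ U
    · exact FI.done _ _ ⟨l, hl.trans (h01 _ hxU)⟩
    have hl1 : c l = a := hl.trans (h02 _ hxU)
    have hxW : F x ∈ W := (hF.2.1 x).resolve_left hxU
    have hk : copNumber (G.induce B) ≤ k := hP B hW.root.1 (hρB.connected hG)
    have h3 := FI.combine (G := G) (I := fun r => F r ∉ A)
      (fun i : Fin (copNumber (G.induce B)) => l.succAbove (Fin.castLE hk i))
      (Fin.succAbove_right_injective.comp (Fin.castLE_injective hk))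
      (P := fun c x => ∃ i, c i = ρB (ρ1 (F x)))
      (fun c r => c l = a ∧ F r ∈ W ∧ F r ∉ U) (fun c r => ∃ l, c l = F r)
      (fun c r h4 h5 => h4.2.2 (hAU _ h5))
      (by
        rintro c c' h4 r ⟨h5, h6⟩
        refine ⟨?_, h6⟩
        rw [← h4 l fun i => Fin.succAbove_ne l _]
        exact h5)
      (by
        rintro c r r' ⟨h4, h5, h6⟩ hr
        have h7 := hF.step hr
        by_cases h8 : F r' ∈ U
        · have h9 : F r' ∈ W := by
            rcases h7 with h7 | h7
            · rw [← h7]
              exact h5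
            · exact (hsep _ h8 _ h5 h7.symm).resolve_right h6
          refine ⟨Function.update c l (F r'), fun t => ?_,
            Or.inl ⟨l, Function.update_self _ _ _⟩⟩
          by_cases ht : t = l
          · rw [ht, Function.update_self, h4]
            exact (hX _ h8 h9).2.2.1
          · rw [Function.update_of_ne ht]
            exact Or.inl rfl
        · exact ⟨c, fun _ => Or.inl rfl, Or.inr ⟨h4, (hF.2.1 r').resolve_left h8, h8⟩⟩)
      (chase hG hρB.sh _ x) c rfl ⟨hl1, hxW, hxU⟩
    refine FI.bind ?_ h3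
    rintro c x (⟨⟨i, hi⟩, h4, h5, h6⟩ | hl2)
    swap
    · exact FI.done _ _ hl2
    have key : ∀ (c : Fin (k + 1) → V) x,
        FI G (fun r => ρ1 (F r) ∉ B) (fun c x => ∃ l, c l = ρ1 (F x)) c x → F x ∈ W →
        FI G (fun r => F r ∉ A) (fun c x => ∃ l, c l = F x) c x := by
      intro c x h7
      induction h7 with
      | done c r hp =>
        intro hr
        obtain ⟨l, hl⟩ := hp
        exact FI.done _ _ ⟨l, hl.trans (h11 _ hr)⟩
      | step c r c' hI hs _ ih =>
        intro hr
        have h8 : F r ∉ U := by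
          intro h9
          apply hI
          rw [h11 _ hr]
          exact (hX _ h9 hr).2.1
        refine FI.step c r c' (fun h9 => h8 (hAU _ h9)) hs fun r' hr' => ih r' hr' ?_
        rcases hF.step hr' with h9 | h9
        · rw [← h9]
          exact hr
        · rcases hF.2.1 r' with h10 | h10
          · exact (hsep _ h10 _ hr h9.symm).resolve_right h8
          · exact h10
    exact key c x (hcB c x ⟨_, hi⟩) h5

theorem tree_bound [Fintype V] (G : SimpleGraph V) (hG : G.Connected) {P : Set V → Prop} {k : ℕ}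
    (hP : ∀ A, P A → (G.induce A).Connected → copNumber (G.induce A) ≤ k) {A : Set V}
    (h : Tree G P A Set.univ) : copNumber G ≤ k + 1 := by
  obtain ⟨o⟩ := hG.nonempty
  obtain ⟨ρ, hρ, -, hc⟩ := h.catch hG hP id
    ⟨fun x y h => Or.inr h, fun x => Set.mem_univ x, fun x _ => rfl⟩
  have hk : copNumber (G.induce A) ≤ k + 1 :=
    (hP A h.root.1 (hρ.connected hG)).trans (Nat.le_succ k)
  have h1 := copNumber_le_of_force (G := G) (ι := Fin (k + 1)) (fun _ => o) fun x => by
    have h2 := Force.embed (G := G) (R := Step G) (Fin.castLE hk) (Fin.castLE_injective hk)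
      (chase hG hρ.sh _ x) (fun _ => o) rfl
    refine Force.bind ?_ h2
    rintro c x ⟨i, hi⟩
    exact (hc c x ⟨_, hi⟩).force
  rwa [Fintype.card_fin] at h1

/-! ### Stars and retracts which separate the graph -/

/-- `C` is a union of components of the graph outside `X`, and `G[C]` is connected: the territory
of a robber who never enters `X`. -/
def Terr (G : SimpleGraph V) (X C : Set V) : Prop :=
  (G.induce C).Connected ∧ (∀ x ∈ C, x ∉ X) ∧ ∀ x ∈ C, ∀ y, G.Adj x y → y ∈ C ∨ y ∈ X

theorem exists_terr (G : SimpleGraph V) (X : Set V) (x : V) (hx : x ∉ X) :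
    ∃ C, Terr G X C ∧ x ∈ C := by
  set H := G.induce Xᶜ with hH
  set x0 : ↥(Xᶜ) := ⟨x, hx⟩ with hx0
  set D : Set ↥(Xᶜ) := {y | H.Reachable x0 y} with hD
  refine ⟨Subtype.val '' D, ⟨?_, ?_, ?_⟩, ⟨x0, SimpleGraph.Reachable.refl _, rfl⟩⟩
  · have key : ∀ (y z : ↥(Xᶜ)) (w : H.Walk y z) (hy : y ∈ D),
        ∃ hz : z ∈ D, (G.induce (Subtype.val '' D)).Reachable ⟨y.1, y, hy, rfl⟩
          ⟨z.1, z, hz, rfl⟩ := by
      intro y z w
      induction w with
      | nil => exact fun hy => ⟨hy, SimpleGraph.Reachable.refl _⟩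
      | @cons u v w hadj _ ih =>
        intro hu
        have hv : v ∈ D := SimpleGraph.Reachable.trans hu (SimpleGraph.Adj.reachable hadj)
        obtain ⟨hz, h1⟩ := ih hv
        refine ⟨hz, SimpleGraph.Reachable.trans ?_ h1⟩
        exact SimpleGraph.Adj.reachable (G := G.induce (Subtype.val '' D)) hadj
    have hx0D : x0 ∈ D := SimpleGraph.Reachable.refl _
    refine (SimpleGraph.connected_iff _).2 ⟨?_, ⟨⟨x0.1, x0, hx0D, rfl⟩⟩⟩
    have h2 : ∀ a : ↥(Subtype.val '' D),
        (G.induce (Subtype.val '' D)).Reachable ⟨x0.1, x0, hx0D, rfl⟩ a := by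
      rintro ⟨_, a, ha, rfl⟩
      obtain ⟨w⟩ := (id ha : H.Reachable x0 a)
      obtain ⟨_, h3⟩ := key x0 a w hx0D
      exact h3
    exact fun a b => (h2 a).symm.trans (h2 b)
  · rintro _ ⟨y, _, rfl⟩
    exact y.2
  · rintro _ ⟨y, hy, rfl⟩ z hz
    by_cases hzX : z ∈ X
    · exact Or.inr hzX
    · have hadj : H.Adj y ⟨z, hzX⟩ := hz
      exact Or.inl ⟨⟨z, hzX⟩, SimpleGraph.Reachable.trans hy (SimpleGraph.Adj.reachable hadj), rfl⟩

/-- The cops who win on `G[C]` catch a robber who stays in `C`. -/
theorem hunt_in {G : SimpleGraph V} {C : Set V} {k : ℕ} (m : ℕ) :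
    ∀ (c : Fin k → C) (x : C), CopsCatchWithin (G.induce C) k m c x →
      ∃ c' : Fin k → V, (∀ i, Step G (c i : V) (c' i)) ∧
        Force G (fun r r' => Step G r r' ∧ r ∈ C ∧ r' ∈ C) (fun c x => ∃ i, c i = x) c' x := by
  induction m with
  | zero =>
    rintro c x ⟨i, hi⟩
    exact ⟨fun i => c i, fun i => Or.inl rfl,
      Force.done _ _ ⟨i, congrArg Subtype.val hi⟩⟩
  | succ m ih =>
    intro c x hc
    rcases hc with ⟨i, hi⟩ | ⟨c', hc', hc⟩
    · exact ⟨fun i => c i, fun i => Or.inl rfl,
        Force.done _ _ ⟨i, congrArg Subtype.val hi⟩⟩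
    · refine ⟨fun i => c' i, fun i => step_coe (hc' i), ?_⟩
      rcases hc with ⟨i, hi⟩ | hc
      · exact Force.done _ _ ⟨i, congrArg Subtype.val hi⟩
      · refine Force.round fun x' hx' => ?_
        refine ih c' ⟨x', hx'.2.2⟩ (hc _ ?_)
        rcases hx'.1 with h1 | h1
        · exact Or.inl (Subtype.ext h1)
        · exact Or.inr h1

theorem chase_in [Finite V] {G : SimpleGraph V} (hG : G.Connected) (C : Set V)
    (c : Fin (copNumber (G.induce C)) → V) (x : V) :
    Force G (fun r r' => Step G r r' ∧ r ∈ C ∧ r' ∈ C) (fun c x => ∃ i, c i = x) c x := by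
  classical
  have hC : Fintype C := Fintype.ofFinite _
  obtain ⟨c0, hc0⟩ := copsWin_copNumber (G.induce C)
  have hw : ∀ i, ∃ m, Wk (Step G) m (c i) (c0 i : V) := fun i => wk_exists hG _ _
  choose M hM using hw
  have hw' : ∀ i, Wk (Step G) (Finset.univ.sup M) (c i) (c0 i : V) := fun i =>
    wk_mono (R := Step G) (fun x => (Or.inl rfl : Step G x x))
      (Finset.le_sup (f := M) (Finset.mem_univ i)) (hM i)
  have h1 : Force G (fun r r' => Step G r r' ∧ r ∈ C ∧ r' ∈ C)
      (fun d _ => d = fun i => (c0 i : V)) c x :=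
    Force.walk _ hw' fun _ _ => rfl
  refine Force.bind ?_ h1
  rintro _ r rfl
  refine Force.round fun r' hr' => ?_
  obtain ⟨m, hm⟩ := hc0 ⟨r', hr'.2.2⟩
  exact hunt_in m c0 _ hm

/-- the union of the stars with centres in `S` and of the sets `W j` -/
def Bar (G : SimpleGraph V) {m : ℕ} (S : Finset V) (W : Fin m → Set V) : Set V :=
  {x | (∃ s ∈ S, s = x ∨ G.Adj s x) ∨ ∃ j, x ∈ W j}

theorem guard_bound [Fintype V] (G : SimpleGraph V) (hG : G.Connected) {m b : ℕ}
    (F : Fin m → V → V) (W : Fin m → Set V) (hF : ∀ j, Retr G (F j) (W j)) (S : Finset V)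
    (hk : ∀ j, copNumber (G.induce (W j)) ≤ b)
    (hC : ∀ C, Terr G (Bar G S W) C → copNumber (G.induce C) ≤ b) :
    copNumber G ≤ S.card + m + b := by
  classical
  obtain ⟨o⟩ := hG.nonempty
  have hmain : ∀ x, Force G (Step G) (fun (c : ↥S ⊕ Fin (m + b) → V) x => ∃ l, c l = x)
      (fun _ => o) x := by
    intro x
    -- the stars
    have hw : ∀ s : ↥S, ∃ M, Wk (Step G) M o (s : V) := fun s => wk_exists hG _ _
    choose M hM using hw
    have h0 : Force G (Step G) (fun (c : ↥S ⊕ Fin (m + b) → V) _ => ∀ s, c (Sum.inl s) = s)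
        (fun _ => o) x := by
      refine Force.walk (P := fun (c : ↥S ⊕ Fin (m + b) → V) _ => ∀ s, c (Sum.inl s) = s)
        (Finset.univ.sup M) (d := Sum.elim (fun s => (s : V)) fun _ => o) ?_ fun _ _ s => rfl
      rintro (s | i)
      · exact wk_mono (R := Step G) (fun x => (Or.inl rfl : Step G x x))
          (Finset.le_sup (f := M) (Finset.mem_univ s)) (hM s)
      · exact Pool.Agent.Y392.Mey.wk_refl (R := Step G) (fun x => (Or.inl rfl : Step G x x)) _ o
    refine Force.bind ?_ h0
    intro c x hcS
    -- the guards of the retracts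
    have h1 := Force.combine (G := G) (R := Step G) (R1 := Step G) (Sum.inr)
      (Sum.inr_injective (α := ↥S) (β := Fin (m + b))) (P := Gd F m)
      (fun c _ => ∀ s, c (Sum.inl s) = s) (fun _ _ => False)
      (by
        intro c c' h3 r h4 s
        rw [← h3 (Sum.inl s) (fun k => Sum.inr_ne_inl)]
        exact h4 s)
      (fun c r r' h3 h4 => Or.inr ⟨h4, c, fun _ => Or.inl rfl, h3⟩)
      (guards hG hF hk m le_rfl (c ∘ Sum.inr) x) c rfl hcS
    refine Force.bind ?_ h1
    rintro c x (⟨⟨e, he, hce⟩, hcS⟩ | h3)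
    swap
    · exact h3.elim
    -- what happens if the robber enters the barrier
    have hbar : ∀ (c : ↥S ⊕ Fin (m + b) → V) (r r' : V), (∀ s, c (Sum.inl s) = s) →
        (∀ j : Fin m, j.val < m → c (Sum.inr (e j)) = F j r) → Step G r r' →
        r' ∈ Bar G S W → ∃ c' : ↥S ⊕ Fin (m + b) → V, (∀ i, Step G (c i) (c' i)) ∧
          ∃ l, c' l = r' := by
      intro c r r' h1 h2 h3 h4
      rcases h4 with ⟨s, hs, hsr⟩ | ⟨j, hj⟩
      · refine ⟨Function.update c (Sum.inl ⟨s, hs⟩) r', fun t => ?_, Sum.inl ⟨s, hs⟩,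
          Function.update_self _ _ _⟩
        by_cases ht : t = Sum.inl ⟨s, hs⟩
        · rw [ht, Function.update_self, h1]
          exact hsr
        · rw [Function.update_of_ne ht]
          exact Or.inl rfl
      · refine ⟨Function.update c (Sum.inr (e j)) r', fun t => ?_, Sum.inr (e j),
          Function.update_self _ _ _⟩
        by_cases ht : t = Sum.inr (e j)
        · rw [ht, Function.update_self, h2 j j.isLt]
          have := (hF j).step h3
          rwa [(hF j).2.2 r' hj] at this
        · rw [Function.update_of_ne ht]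
          exact Or.inl rfl
    -- the guards keep their duties
    have hkeep : ∀ (c : ↥S ⊕ Fin (m + b) → V) (r r' : V), (∀ s, c (Sum.inl s) = s) →
        (∀ j : Fin m, j.val < m → c (Sum.inr (e j)) = F j r) → Step G r r' →
        ∃ c' : ↥S ⊕ Fin (m + b) → V, (∀ i, Step G (c i) (c' i)) ∧ (∀ s, c' (Sum.inl s) = s) ∧
          ∀ j : Fin m, j.val < m → c' (Sum.inr (e j)) = F j r' := by
      intro c r r' h1 h2 h3
      obtain ⟨d, hd1, hd2⟩ := keep hF m e he (c ∘ Sum.inr) r r' h3 h2
      refine ⟨Sum.elim (c ∘ Sum.inl) d, ?_, h1, hd2⟩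
      rintro (s | i)
      · exact Or.inl rfl
      · exact hd1 i
    refine Force.round fun x' hx' => ?_
    by_cases hxB : x' ∈ Bar G S W
    · obtain ⟨c', h2, h3⟩ := hbar c x x' hcS hce hx' hxB
      exact ⟨c', h2, Force.done _ _ h3⟩
    · obtain ⟨c', h2, h3, h4⟩ := hkeep c x x' hcS hce hx'
      refine ⟨c', h2, ?_⟩
      obtain ⟨C, hCt, hxC⟩ := exists_terr G (Bar G S W) x' hxB
      set T : Finset (Fin (m + b)) := Finset.univ \ Finset.univ.image e with hT
      have hcard : copNumber (G.induce C) ≤ T.card := by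
        have h5 : T.card = (m + b) - m := by
          rw [hT, Finset.card_sdiff_of_subset (Finset.subset_univ _),
            Finset.card_image_of_injective _ he, Finset.card_univ, Finset.card_univ,
            Fintype.card_fin, Fintype.card_fin]
        have := hC C hCt
        omega
      set g : Fin (copNumber (G.induce C)) → ↥S ⊕ Fin (m + b) :=
        fun l => Sum.inr (T.orderEmbOfCardLe hcard l) with hg
      have hginj : Function.Injective g :=
        Sum.inr_injective.comp (T.orderEmbOfCardLe hcard).injective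
      have hgT : ∀ l j, Sum.inr (e j) ≠ g l := by
        intro l j h5
        have h6 : e j = T.orderEmbOfCardLe hcard l := Sum.inr_injective h5
        have h7 := Finset.orderEmbOfCardLe_mem T hcard l
        rw [← h6, hT, Finset.mem_sdiff] at h7
        exact h7.2 (Finset.mem_image.2 ⟨j, Finset.mem_univ _, rfl⟩)
      have h5 := Force.combine (G := G) (R := Step G)
        (R1 := fun r r' => Step G r r' ∧ r ∈ C ∧ r' ∈ C) g hginj
        (P := fun c x => ∃ i, c i = x)
        (fun c r => (∀ s, c (Sum.inl s) = s) ∧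
          (∀ j : Fin m, j.val < m → c (Sum.inr (e j)) = F j r) ∧ r ∈ C)
        (fun c r => ∃ l, c l = r)
        (by
          rintro c c' h6 r ⟨h7, h8, h9⟩
          refine ⟨fun s => ?_, fun j hj => ?_, h9⟩
          · rw [← h6 (Sum.inl s) (fun k => Sum.inr_ne_inl)]
            exact h7 s
          · rw [← h6 (Sum.inr (e j)) (fun l h10 => hgT l j h10.symm)]
            exact h8 j hj)
        (by
          rintro c r r' ⟨h6, h7, h8⟩ h9
          by_cases hr : r' ∈ Bar G S W
          · exact Or.inl (hbar c r r' h6 h7 h9 hr)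
          · have hrC : r' ∈ C := by
              rcases h9 with h10 | h10
              · rw [← h10]
                exact h8
              · exact (hCt.2.2 r h8 r' h10).resolve_right hr
            obtain ⟨d, hd1, hd2, hd3⟩ := hkeep c r r' h6 h7 h9
            exact Or.inr ⟨⟨h9, h8, hrC⟩, d, hd1, hd2, hd3, hrC⟩)
        (chase_in hG C (c' ∘ g) x') c' rfl ⟨h3, h4, hxC⟩
      refine Force.mono ?_ h5
      rintro d y (⟨⟨l, hl⟩, -⟩ | h6)
      · exact ⟨g l, hl⟩
      · exact h6
  have h1 := copNumber_le_of_force (G := G) (ι := ↥S ⊕ Fin (m + b)) (fun _ => o) hmain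
  rw [Fintype.card_sum, Fintype.card_coe, Fintype.card_fin] at h1
  omega

/-- A graph needs no more cops than its image under a retraction `f` such that `N[x] ⊆ N[f x]` for
all `x`. -/
theorem fold_bound [Fintype V] (G : SimpleGraph V) (hG : G.Connected) (f : V → V) (W : Set V)
    (hf : Retr G f W) (hd : ∀ x y, Step G x y → Step G (f x) y) :
    copNumber G ≤ copNumber (G.induce W) := by
  classical
  obtain ⟨o⟩ := hG.nonempty
  have h1 := copNumber_le_of_force (G := G) (ι := Fin (copNumber (G.induce W))) (fun _ => o)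
    fun x => by
      refine Force.bind ?_ (chase hG hf.sh (fun _ => o) x)
      rintro c r ⟨i, hi⟩
      refine Force.round fun r' hr' => ?_
      refine ⟨Function.update c i r', fun t => ?_,
        Force.done _ _ ⟨i, Function.update_self _ _ _⟩⟩
      by_cases ht : t = i
      · rw [ht, Function.update_self, hi]
        exact hd r r' hr'
      · rw [Function.update_of_ne ht]
        exact Or.inl rfl
  rwa [Fintype.card_fin] at h1

/-- `Cheap P a V G`: at the cost `a`, the graph `G` can be reduced to graphs with the property `P`,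
by gluing `N` pieces (cost `log₂ N`), by gluing like a tree (cost `1`), by separation with stars and
retracts (cost: their number), and by folding onto the image of a retraction `f` with
`N[x] ⊆ N[f x]` for all `x` (no cost). -/
inductive Cheap (P : (V : Type) → SimpleGraph V → Prop) : ℕ → (V : Type) → SimpleGraph V → Prop
  | base (V : Type) (G : SimpleGraph V) : P V G → Cheap P 0 V G
  | mono (a a' : ℕ) (V : Type) (G : SimpleGraph V) : a ≤ a' → Cheap P a V G → Cheap P a' V G
  | glue (a N : ℕ) (V : Type) (G : SimpleGraph V) (Q : Set V → Prop) : Built G Q N Set.univ →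
      (∀ A, Q A → Cheap P a A (G.induce A)) → Cheap P (a + Nat.log 2 N) V G
  | tree (a : ℕ) (V : Type) (G : SimpleGraph V) (Q : Set V → Prop) (R : Set V) :
      Tree G Q R Set.univ → (∀ A, Q A → Cheap P a A (G.induce A)) → Cheap P (a + 1) V G
  | cut (a m : ℕ) (V : Type) (G : SimpleGraph V) (S : Finset V) (f : Fin m → V → V)
      (W : Fin m → Set V) : (∀ j, Retr G (f j) (W j)) →
      (∀ j, Cheap P a (W j) (G.induce (W j))) →
      (∀ C, Terr G (Bar G S W) C → Cheap P a C (G.induce C)) → Cheap P (a + (S.card + m)) V G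
  | fold (a : ℕ) (V : Type) (G : SimpleGraph V) (f : V → V) (W : Set V) : Retr G f W →
      (∀ x y, Step G x y → Step G (f x) y) → Cheap P a W (G.induce W) → Cheap P a V G

theorem cheap_bound {P : (V : Type) → SimpleGraph V → Prop} {b n : ℕ}
    (hP : ∀ (V : Type) (G : SimpleGraph V), Finite V → Nat.card V ≤ n → G.Connected → P V G →
      copNumber G ≤ b) {a : ℕ} {V : Type} {G : SimpleGraph V} (h : Cheap P a V G) :
    Finite V → Nat.card V ≤ n → G.Connected → copNumber G ≤ a + b := by
  induction h with
  | base V G hPG =>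
    intro hV hn hG
    exact (hP V G hV hn hG hPG).trans (Nat.le_add_left b _)
  | mono a a' V G haa _ ih =>
    intro hV hn hG
    have := ih hV hn hG
    omega
  | glue a N V G Q hQ _ ih =>
    intro hV hn hG
    have hF : Fintype V := Fintype.ofFinite V
    have h1 := built_bound G hG (k := a + b)
      (fun A hA hc => ih A hA inferInstance
        ((Nat.card_le_card_of_injective _ Subtype.val_injective).trans hn) hc) hQ
    omega
  | tree a V G Q R hQ _ ih =>
    intro hV hn hG
    have hF : Fintype V := Fintype.ofFinite V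
    have h1 := tree_bound G hG (k := a + b)
      (fun A hA hc => ih A hA inferInstance
        ((Nat.card_le_card_of_injective _ Subtype.val_injective).trans hn) hc) hQ
    omega
  | cut a m V G S f W hf _ _ ih1 ih2 =>
    intro hV hn hG
    have hF : Fintype V := Fintype.ofFinite V
    have hle : ∀ A : Set V, Nat.card A ≤ n := fun A =>
      (Nat.card_le_card_of_injective _ Subtype.val_injective).trans hn
    have h1 := guard_bound G hG f W hf S (b := a + b)
      (fun j => ih1 j inferInstance (hle _) ((hf j).connected hG))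
      (fun C hC => ih2 C hC inferInstance (hle _) hC.1)
    omega
  | fold a V G f W hf hd _ ih =>
    intro hV hn hG
    have hF : Fintype V := Fintype.ofFinite V
    exact (fold_bound G hG f W hf hd).trans (ih inferInstance
      ((Nat.card_le_card_of_injective _ Subtype.val_injective).trans hn) (hf.connected hG))

/-! ### Shortest paths -/

theorem lip {G : SimpleGraph V} (hG : G.Connected) (u : V) {x y : V} (h : Step G x y) :
    G.dist u y ≤ G.dist u x + 1 := by
  rcases h with rfl | h
  · exact Nat.le_succ _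
  · have h1 := hG.dist_triangle (u := u) (v := x) (w := y)
    rwa [SimpleGraph.dist_eq_one_iff_adj.2 h] at h1

theorem path_step {G : SimpleGraph V} {u v : V} (w : G.Walk u v) (i : ℕ) :
    Step G (w.getVert i) (w.getVert (i + 1)) := by
  rcases lt_or_ge i w.length with h | h
  · exact Or.inr (w.adj_getVert_succ h)
  · rw [w.getVert_of_length_le h, w.getVert_of_length_le (h.trans (Nat.le_succ _))]
    exact Or.inl rfl

theorem path_dist {G : SimpleGraph V} (hG : G.Connected) {u v : V} (w : G.Walk u v)
    (hw : w.length = G.dist u v) {i : ℕ} (hi : i ≤ w.length) : G.dist u (w.getVert i) = i := by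
  have h1 : ∀ i k, G.dist u (w.getVert (i + k)) ≤ G.dist u (w.getVert i) + k := by
    intro i k
    induction k with
    | zero => exact le_rfl
    | succ k ih =>
      have := lip hG u (path_step w (i + k))
      have h2 : i + (k + 1) = i + k + 1 := by omega
      rw [h2]
      omega
  have h2 := h1 0 i
  rw [Nat.zero_add, w.getVert_zero, SimpleGraph.dist_self, Nat.zero_add] at h2
  have h3 := h1 i (w.length - i)
  rw [Nat.add_sub_cancel' hi, w.getVert_length, ← hw] at h3
  omega

/-- A shortest path is a retract. -/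
theorem path_retr {G : SimpleGraph V} (hG : G.Connected) {u v : V} (w : G.Walk u v)
    (hw : w.length = G.dist u v) :
    Retr G (fun x => w.getVert (G.dist u x)) {x | x ∈ w.support} := by
  refine ⟨fun x y h => ?_, fun x => w.getVert_mem_support _, fun x hx => ?_⟩
  · have h1 := lip hG u (Or.inr h)
    have h2 := lip hG u (Or.inr h.symm)
    rcases lt_trichotomy (G.dist u x) (G.dist u y) with h3 | h3 | h3
    · have h4 : G.dist u y = G.dist u x + 1 := by omega
      have := path_step w (G.dist u x)
      rw [← h4] at this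
      exact this
    · exact Or.inl (congrArg w.getVert h3)
    · have h4 : G.dist u x = G.dist u y + 1 := by omega
      have := path_step w (G.dist u y)
      rw [← h4] at this
      exact this.imp Eq.symm SimpleGraph.Adj.symm
  · obtain ⟨n, rfl, hn⟩ := SimpleGraph.Walk.mem_support_iff_exists_getVert.1 hx
    show w.getVert (G.dist u (w.getVert n)) = w.getVert n
    rw [path_dist hG w hw hn]

/-- One cop wins on a shortest path. -/
theorem path_cop [Fintype V] {G : SimpleGraph V} (hG : G.Connected) {u v : V} (w : G.Walk u v)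
    (hw : w.length = G.dist u v) : copNumber (G.induce {x | x ∈ w.support}) ≤ 1 := by
  classical
  set W : Set V := {x | x ∈ w.support} with hW
  have hfW : Fintype W := Fintype.ofFinite _
  set p : ℕ → W := fun i => ⟨w.getVert i, w.getVert_mem_support i⟩ with hp
  have hx : ∀ (x : W) (i : ℕ), G.dist u x.1 = i → p i = x := fun x i h =>
    Subtype.ext (by rw [← h]; exact (path_retr hG w hw).2.2 x.1 x.2)
  have key : ∀ m i, i + m = w.length → ∀ x : W, i ≤ G.dist u x.1 →
      Force (G.induce W) (Step (G.induce W)) (fun (c : Fin 1 → W) x => ∃ l, c l = x)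
        (fun _ => p i) x := by
    intro m
    induction m with
    | zero =>
      intro i hi x hix
      obtain ⟨n, hn, hnl⟩ := SimpleGraph.Walk.mem_support_iff_exists_getVert.1 x.2
      have h1 := path_dist hG w hw hnl
      rw [hn] at h1
      exact Force.done _ _ ⟨0, hx x i (by omega)⟩
    | succ m ih =>
      intro i hi x hix
      rcases Nat.eq_or_lt_of_le hix with h1 | h1
      · exact Force.done _ _ ⟨0, hx x i h1.symm⟩
      · refine Force.round fun x' hx' => ?_
        have h2 : G.dist u x.1 ≤ G.dist u x'.1 + 1 :=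
          lip hG u ((step_coe hx').imp Eq.symm SimpleGraph.Adj.symm)
        rcases Nat.eq_or_lt_of_le (show i ≤ G.dist u x'.1 by omega) with h3 | h3
        · exact ⟨fun _ => p i, fun _ => Or.inl rfl, Force.done _ _ ⟨0, hx x' i h3.symm⟩⟩
        · refine ⟨fun _ => p (i + 1), fun _ => ?_, ih (i + 1) (by omega) x' h3⟩
          exact Or.inr (w.adj_getVert_succ (by omega))
  have h1 := copNumber_le_of_force (G := G.induce W) (ι := Fin 1) (fun _ => p 0) fun x =>
    key w.length 0 (Nat.zero_add _) x (Nat.zero_le _)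
  rwa [Fintype.card_fin] at h1

/-! ### Meyniel's bound -/

theorem sqrt_small {a L n : ℝ} (ha : 0 ≤ a) (hL : 0 ≤ L) (h : a * L ^ 2 ≤ n) : √a * L ≤ √n := by
  have h1 := Real.sqrt_le_sqrt h
  rwa [Real.sqrt_mul ha, Real.sqrt_sq hL] at h1

/-- `Easy n W H`: the graph `H` has at most `n / (log n + 1)²` vertices, or cop number at most
`81 √n`. -/
def Easy (n : ℕ) (W : Type) (H : SimpleGraph W) : Prop :=
  (Nat.card W : ℝ) * (Real.log n + 1) ^ 2 ≤ n ∨ (copNumber H : ℝ) ≤ 81 * √(n : ℝ)

theorem easy_bound {n : ℕ} (V : Type) (G : SimpleGraph V) (hV : Finite V) (hn : Nat.card V ≤ n)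
    (hG : G.Connected) (h : Easy n V G) : copNumber G ≤ ⌊81 * √(n : ℝ)⌋₊ := by
  classical
  rcases h with h | h
  swap
  · exact Nat.le_floor h
  have hF : Fintype V := Fintype.ofFinite _
  have h1 := Pool.Agent.H594R2.Mey2.graph_bound G hG
  have hne : Nonempty V := hG.nonempty
  rw [Nat.card_eq_fintype_card] at h hn
  have hc1 : (1 : ℝ) ≤ Fintype.card V := by exact_mod_cast Fintype.card_pos
  have hc2 : (Fintype.card V : ℝ) ≤ n := by exact_mod_cast hn
  have hl : Real.log (Fintype.card V) ≤ Real.log n := Real.log_le_log (by linarith) hc2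
  have hl0 : 0 ≤ Real.log (Fintype.card V : ℝ) := Real.log_nonneg hc1
  have h2 := sqrt_small (by linarith : (0 : ℝ) ≤ Fintype.card V)
    (by linarith : 0 ≤ Real.log (n : ℝ) + 1) h
  have h3 : √(Fintype.card V : ℝ) * (Real.log (Fintype.card V) + 1) ≤
      √(Fintype.card V : ℝ) * (Real.log n + 1) :=
    mul_le_mul_of_nonneg_left (by linarith) (Real.sqrt_nonneg _)
  refine Nat.le_floor ?_
  nlinarith

theorem cheap_meyniel {V : Type} [Fintype V] (G : SimpleGraph V) (hG : G.Connected) {a : ℕ}
    (h : Cheap (Easy (Fintype.card V)) a V G) :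
    (copNumber G : ℝ) ≤ a + 81 * √(Fintype.card V : ℝ) := by
  have h1 := cheap_bound (n := Fintype.card V) (b := ⌊81 * √(Fintype.card V : ℝ)⌋₊) easy_bound h
    inferInstance Nat.card_eq_fintype_card.le hG
  have h2 : (⌊81 * √(Fintype.card V : ℝ)⌋₊ : ℝ) ≤ 81 * √(Fintype.card V : ℝ) :=
    Nat.floor_le (by positivity)
  have h3 : (copNumber G : ℝ) ≤ (a : ℝ) + (⌊81 * √(Fintype.card V : ℝ)⌋₊ : ℝ) := by
    exact_mod_cast h1
  linarith

/-- Let `G` be a connected graph on `n` vertices. A graph is called easy if it has at most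
`n / (log n + 1)²` vertices or cop number at most `81 √n`.
(1) If `G` can be reduced at the cost `a` to graphs with cop number at most `k`, then
`c(G) ≤ a + k`.
(2) If `G` can be reduced at the cost `a` to easy graphs, then `c(G) ≤ a + 81 √n`.
(3) In particular, if `G` is glued like a tree from easy pieces (gluing sets dominated inside the
pieces), then `c(G) ≤ 82 √n`.
(4) In particular, if `G` is obtained by gluing from `N ≤ 2 ^ √n` easy pieces, then
`c(G) ≤ 82 √n`.
(5) In particular, if `S` is a set of vertices and `W₁, …, Wₘ` are retracts, `|S| + m ≤ √n`, and if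
the retracts, and the components outside the retracts and the closed neighbourhoods of the vertices
in `S`, are easy, then `c(G) ≤ 82 √n`.
(6) The same for shortest paths instead of retracts (they are retracts with cop number `1`). -/
theorem result (V : Type) [Fintype V] (G : SimpleGraph V) (hG : G.Connected) :
    (∀ a k : ℕ, Cheap (fun _ H => copNumber H ≤ k) a V G → copNumber G ≤ a + k) ∧
    (∀ a : ℕ, Cheap (Easy (Fintype.card V)) a V G →
      (copNumber G : ℝ) ≤ a + 81 * √(Fintype.card V : ℝ)) ∧
    (∀ R, Tree G (fun A => Easy (Fintype.card V) A (G.induce A)) R Set.univ →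
      (copNumber G : ℝ) ≤ 82 * √(Fintype.card V : ℝ)) ∧
    (∀ N : ℕ, Built G (fun A => Easy (Fintype.card V) A (G.induce A)) N Set.univ →
      (N : ℝ) ≤ 2 ^ √(Fintype.card V : ℝ) →
      (copNumber G : ℝ) ≤ 82 * √(Fintype.card V : ℝ)) ∧
    (∀ (S : Finset V) (m : ℕ) (f : Fin m → V → V) (W : Fin m → Set V),
      (∀ j, Retr G (f j) (W j)) → (∀ j, Easy (Fintype.card V) (W j) (G.induce (W j))) →
      (∀ C, Terr G (Bar G S W) C → Easy (Fintype.card V) C (G.induce C)) →
      (S.card + m : ℝ) ≤ √(Fintype.card V : ℝ) →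
      (copNumber G : ℝ) ≤ 82 * √(Fintype.card V : ℝ)) ∧
    (∀ (S : Finset V) (m : ℕ) (u v : Fin m → V) (w : ∀ j, G.Walk (u j) (v j)),
      (∀ j, (w j).length = G.dist (u j) (v j)) →
      (∀ C, Terr G (Bar G S fun j => {x | x ∈ (w j).support}) C →
        Easy (Fintype.card V) C (G.induce C)) →
      (S.card + m : ℝ) ≤ √(Fintype.card V : ℝ) →
      (copNumber G : ℝ) ≤ 82 * √(Fintype.card V : ℝ)) := by
  refine ⟨fun a k h => ?_, fun a h => cheap_meyniel G hG h, fun R h => ?_, fun N h hN => ?_,
    fun S m f W hf hW hC hm => ?_, fun S m u v w hw hC hm => ?_⟩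
  · exact cheap_bound (n := Fintype.card V) (fun _ _ _ _ _ h => h) h inferInstance
      Nat.card_eq_fintype_card.le hG
  · have hV : Nonempty V := hG.nonempty
    have hc1 : (1 : ℝ) ≤ √(Fintype.card V : ℝ) := by
      rw [Real.one_le_sqrt]
      exact_mod_cast Fintype.card_pos
    have h1 := cheap_meyniel G hG (a := 0 + 1) (Cheap.tree 0 V G _ R h
      fun A hA => Cheap.base A _ hA)
    push_cast at h1
    linarith
  · have h1 := cheap_meyniel G hG (a := 0 + Nat.log 2 N) (Cheap.glue 0 N V G _ h
      fun A hA => Cheap.base A _ hA)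
    have hN0 : 1 ≤ N := h.pos
    have h3 : (Nat.log 2 N : ℝ) ≤ √(Fintype.card V : ℝ) := by
      have h4 : (2 : ℝ) ^ (Nat.log 2 N : ℝ) ≤ 2 ^ √(Fintype.card V : ℝ) := by
        refine le_trans ?_ hN
        rw [Real.rpow_natCast]
        exact_mod_cast Nat.pow_log_le_self 2 (by omega : N ≠ 0)
      exact (Real.rpow_le_rpow_left_iff (by norm_num : (1 : ℝ) < 2)).1 h4
    push_cast at h1
    linarith
  · have h1 := cheap_meyniel G hG (a := 0 + (S.card + m)) (Cheap.cut 0 m V G S f W hf
      (fun j => Cheap.base _ _ (hW j)) fun C hCt => Cheap.base _ _ (hC C hCt))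
    push_cast at h1
    linarith
  · have hV : Nonempty V := hG.nonempty
    have hc1 : (1 : ℝ) ≤ √(Fintype.card V : ℝ) := by
      rw [Real.one_le_sqrt]
      exact_mod_cast Fintype.card_pos
    have h1 := cheap_meyniel G hG (a := 0 + (S.card + m)) (Cheap.cut 0 m V G S _ _
      (fun j => path_retr hG (w j) (hw j)) (fun j => Cheap.base _ _ (Or.inr ?_)) fun C hCt =>
        Cheap.base _ _ (hC C hCt))
    · push_cast at h1
      linarith
    · have h2 : (copNumber (G.induce {x | x ∈ (w j).support}) : ℝ) ≤ 1 := by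
        exact_mod_cast path_cop hG (w j) (hw j)
      linarith

end Pool.Agent.Results.MP_964892_co.GluingAndRetracts
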