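import Pool.Agent.H594R2.Mey2.Graph
import Pool.Agent.V11214.CP.Built

/-!
# Meyniel's bound for graphs built from smaller graphs

The starting files prove `c(G) ≤ 81 √n (log n + 1)` for all connected graphs `G` on `n` vertices.
Here the logarithm is removed for all graphs on `n` vertices which are obtained, in any number of
steps, from connected graphs on at most `q` vertices, where `√q (log q + 1) ≤ K √n`. The steps are
Cartesian products, strong products, substitution (of arbitrary graphs for the vertices), unfolding
(for example, adding corners), and extending retracts `R` of `X`, where the components of `X - R` have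
at most `n - ε √n` vertices. For instance `c(G □ H) ≤ (81 K + 7/2) √(|G| |H|)` for all connected graphs
`G`, `H` with `2 ≤ |G| ≤ |H|` and `log |H| + 1 ≤ K √|G|`.

Proof. Each step preserves a bound `A √n + F` with `A ≥ 7/2`, `A ε ≥ 2`. For the Cartesian product
(Tošić): `c(G)` cops win the game on `G` for the first coordinate, so that `c(H)` cops can reach, one
by one, the first coordinate of the robber, and keep it. Whenever the robber does not move in `G` they
make a move of the game on `H`; meanwhile the other `c(G)` cops go to the layer of the robber and play
there. For a retract (Berarducci and Intrigila): one cop guards it after `c(X[R])` cops have caught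
the image of the robber.
-/

set_option autoImplicit false

namespace Pool.Agent.Results.MP_964892_co.ProductsAndSubstitution

open N6ef48c04 Pool.Agent.V11214.CP

/-- The connected graphs with at most `q` vertices. -/
def SmallConnected (q : ℕ) (V : Type) (G : SimpleGraph V) : Prop :=
  G.Connected ∧ Finite V ∧ Nat.card V ≤ q

/-- **Theorem.** If `√q (log q + 1) ≤ K √n` then Meyniel's bound `c(X) ≤ (81 K + max(7/2, 2/ε)) √n`
holds for all graphs `X` on `n` vertices which are built from connected graphs on at most `q`
vertices by Cartesian products, strong products, substitution, unfolding and the extension of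
retracts as in the definition of `Built`. -/
theorem result : ∀ (ε : ℝ), 0 < ε → ∀ (q : ℕ) (K : ℝ) (V : Type) [Fintype V] (X : SimpleGraph V),
    Built ε (SmallConnected q) V X → √q * (Real.log q + 1) ≤ K * √(Fintype.card V) →
      (copNumber X : ℝ) ≤ (81 * K + max (7 / 2) (2 / ε)) * √(Fintype.card V) := by
  intro ε hε q K V iV X hX hK
  have hF : (0 : ℝ) ≤ 81 * √q * (Real.log q + 1) := by
    have := Real.log_natCast_nonneg q
    positivity
  have hAε : 2 ≤ max (7 / 2) (2 / ε) * ε := by
    calc (2 : ℝ) = 2 / ε * ε := by field_simp
      _ ≤ _ := mul_le_mul_of_nonneg_right (le_max_right _ _) hε.le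
  have hA : (7 / 2 : ℝ) ≤ max (7 / 2) (2 / ε) := le_max_left _ _
  have h := built_bound (P := SmallConnected q) (fun V G hG => hG.1) (A := max (7 / 2) (2 / ε))
    (F := 81 * √q * (Real.log q + 1)) hA hAε hF (by
      rintro W iW G ⟨hG, -, hq⟩
      rw [Nat.card_eq_fintype_card] at hq
      have h1 := Pool.Agent.H594R2.Mey2.graph_bound G hG
      obtain ⟨w⟩ := hG.nonempty
      have hpos : 0 < Fintype.card W := Fintype.card_pos_iff.2 ⟨w⟩
      have h2 : (Fintype.card W : ℝ) ≤ q := by exact_mod_cast hq
      have h3 : √(Fintype.card W : ℝ) ≤ √q := Real.sqrt_le_sqrt h2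
      have h4 : Real.log (Fintype.card W) ≤ Real.log q :=
        Real.log_le_log (by exact_mod_cast hpos) h2
      have h5 : 0 ≤ Real.log (Fintype.card W : ℝ) := Real.log_natCast_nonneg _
      have h6 : 81 * √(Fintype.card W) * (Real.log (Fintype.card W) + 1) ≤
          81 * √q * (Real.log q + 1) := by gcongr
      have h7 : 0 ≤ max (7 / 2) (2 / ε) * √(Fintype.card W : ℝ) :=
        mul_nonneg (by linarith) (Real.sqrt_nonneg _)
      linarith) hX iV
  linarith

end Pool.Agent.Results.MP_964892_co.ProductsAndSubstitution
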