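import Pool.Agent.V11214.CP.Prime

/-!
# Meyniel's conjecture reduces to prime graphs in which no retract separates much

For every constant `C ≥ 7/2` the bound `c(G) ≤ C √n` for all connected graphs follows from the same
bound, with the same constant, for the connected graphs `G` without nontrivial modules such that
every proper retract `R` leaves a component of `G - R` with more than `n - (2/C) √n` vertices. (So `R`
has less than `(2/C) √n` vertices, for example the diameter is less than `(2/C) √n`, and there are no
corners and no Cartesian or strong products among these graphs, unless they have a single vertex; these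
remarks are not proved here.)
-/

set_option autoImplicit false

namespace Pool.Agent.Results.MP_964892_co.ReductionToPrimeGraphs

open N6ef48c04 Pool.Agent.V11214.CP

/-- Meyniel's bound with the constant `C` for all connected graphs. -/
def MeynielBound (C : ℝ) : Prop :=
  ∀ (V : Type) [Fintype V] (G : SimpleGraph V), G.Connected →
    (copNumber G : ℝ) ≤ C * √(Fintype.card V)

/-- Meyniel's bound with the constant `C` for the `ε`-prime graphs. -/
def MeynielBoundPrime (ε C : ℝ) : Prop :=
  ∀ (V : Type) [Fintype V] (G : SimpleGraph V), PrimeGraph ε V G →
    (copNumber G : ℝ) ≤ C * √(Fintype.card V)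

/-- **Theorem.** For every `C ≥ 7/2` Meyniel's bound with the constant `C` holds for all connected
graphs if and only if it holds for the `2/C`-prime graphs. -/
theorem result : ∀ C : ℝ, 7 / 2 ≤ C → (MeynielBound C ↔ MeynielBoundPrime (2 / C) C) := by
  intro C hC
  refine ⟨fun h V _ G hG => h V G hG.1, fun h V iV G hG => ?_⟩
  have hC0 : 0 < C := by linarith
  have h1 := built_bound (ε := 2 / C) (P := PrimeGraph (2 / C)) (fun V G hG => hG.1) (A := C)
    (F := 0) hC (by rw [mul_div_cancel₀ _ hC0.ne']) le_rfl
    (fun W iW B hB => by
      rw [add_zero]
      exact h W B hB) (built_of_connected _ V iV G le_rfl hG) iV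
  rwa [add_zero] at h1

end Pool.Agent.Results.MP_964892_co.ReductionToPrimeGraphs
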